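import Mathlib

/-!
# Distinct zeros of a polynomial and several of its derivatives

For every `k ≥ 2` the polynomial `P = (z ^ 2 - 1) ^ k` of degree `n = 2 k`, with the `m = 2` orders
`r = (1, n - 1)`, satisfies `N(P; r) = 3 = m + 1`.  Hence the inequality `N(P; r) ≥ m + 2` of the
question is false in every even degree `n ≥ 4`.
-/

open Polynomial

namespace Pool.Agent.Results.MP_106bf9_an.SharpEvenDegree

/-- The set of zeros of `P` and of its derivatives of the orders `r k`. -/
def zeroSet (P : ℂ[X]) {m : ℕ} (r : Fin m → ℕ) : Set ℂ :=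
  {z | P.eval z = 0 ∨ ∃ k, (derivative^[r k] P).eval z = 0}

private lemma natDegree_P (k : ℕ) : ((X ^ 2 - 1 : ℂ[X]) ^ k).natDegree = 2 * k := by
  rw [natDegree_pow]
  have : (X ^ 2 - 1 : ℂ[X]).natDegree = 2 := by
    have := natDegree_X_pow_sub_C (R := ℂ) (n := 2) (r := 1)
    simpa using this
  rw [this, mul_comm]

private lemma deriv_P (k : ℕ) :
    derivative ((X ^ 2 - 1 : ℂ[X]) ^ (k + 1)) = C (2 * (k + 1 : ℂ)) * X * (X ^ 2 - 1) ^ k := by
  rw [derivative_pow]
  simp only [derivative_sub, derivative_X_pow, derivative_one, sub_zero, Nat.cast_add,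
    Nat.cast_one, add_tsub_cancel_right]
  simp only [map_mul, map_add, map_natCast, map_one, map_ofNat]
  ring

/-- The top but one coefficient of an even polynomial vanishes. -/
private lemma coeff_P (k : ℕ) (hk : 1 ≤ k) : ((X ^ 2 - 1 : ℂ[X]) ^ k).coeff (2 * k - 1) = 0 := by
  have h : ((X ^ 2 - 1 : ℂ[X]) ^ k) = expand ℂ 2 ((X - 1) ^ k) := by
    simp [map_pow, map_sub, expand_X]
  rw [h, coeff_expand (by norm_num)]
  rw [if_neg]
  omega

/-- For every `k ≥ 2` there are `m`, orders `1 ≤ r_1 < ⋯ < r_m ≤ n - 1` with `n = 2 k`, and a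
polynomial of degree `n` with two distinct zeros such that `N(P; r) = m + 1`. -/
theorem result : ∀ n : ℕ, Even n → 4 ≤ n →
    ∃ (m : ℕ) (r : Fin m → ℕ) (P : ℂ[X]),
      1 ≤ m ∧ m ≤ n - 1 ∧ StrictMono r ∧ (∀ k, 1 ≤ r k ∧ r k ≤ n - 1) ∧
      P.natDegree = n ∧ (∃ a b : ℂ, a ≠ b ∧ P.eval a = 0 ∧ P.eval b = 0) ∧
      (zeroSet P r).Finite ∧ (zeroSet P r).ncard = m + 1 := by
  rintro n ⟨k, hk⟩ hn
  obtain rfl : n = 2 * k := by omega
  have hk2 : 2 ≤ k := by omega
  set P : ℂ[X] := (X ^ 2 - 1) ^ k with hP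
  have hdeg : P.natDegree = 2 * k := natDegree_P k
  -- the derivative of order `2 k - 1`
  have hlin : ∀ z : ℂ, (derivative^[2 * k - 1] P).eval z = 0 ↔ z = 0 := by
    intro z
    have hd : (derivative^[2 * k - 1] P).natDegree ≤ 1 := by
      have := natDegree_iterate_derivative P (2 * k - 1)
      omega
    have hc0 : (derivative^[2 * k - 1] P).coeff 0 = 0 := by
      rw [coeff_iterate_derivative, zero_add, coeff_P k (by omega), smul_zero]
    have hc1 : (derivative^[2 * k - 1] P).coeff 1 ≠ 0 := by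
      rw [coeff_iterate_derivative]
      have h1 : 1 + (2 * k - 1) = 2 * k := by omega
      rw [h1]
      have hlc : P.coeff (2 * k) = 1 := by
        have hm : P.Monic := by
          have : (X ^ 2 - 1 : ℂ[X]).Monic := by
            have := monic_X_pow_sub_C (R := ℂ) (1 : ℂ) (n := 2) (by norm_num)
            simpa using this
          exact this.pow k
        have := hm.coeff_natDegree
        rwa [hdeg] at this
      rw [hlc, nsmul_eq_mul, mul_one]
      have : 0 < Nat.descFactorial (2 * k) (2 * k - 1) := by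
        rw [Nat.descFactorial_pos]
        omega
      exact_mod_cast this.ne'
    have hev : (derivative^[2 * k - 1] P).eval z
        = (derivative^[2 * k - 1] P).coeff 1 * z := by
      rw [eval_eq_sum_range' (n := 2) (by omega)]
      simp [Finset.sum_range_succ, hc0]
    rw [hev]
    constructor
    · intro h
      rcases mul_eq_zero.mp h with h | h
      · exact absurd h hc1
      · exact h
    · rintro rfl
      simp
  have hder : ∀ z : ℂ, (derivative^[1] P).eval z = 0 ↔ z = 0 ∨ z = 1 ∨ z = -1 := by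
    intro z
    obtain ⟨j, rfl⟩ : ∃ j, k = j + 1 := ⟨k - 1, by omega⟩
    have hj : j ≠ 0 := by omega
    rw [Function.iterate_one, hP, deriv_P]
    simp only [eval_mul, eval_C, eval_X, eval_pow, eval_sub, eval_one, mul_eq_zero,
      pow_eq_zero_iff hj]
    have h2 : (2 : ℂ) ≠ 0 := two_ne_zero
    have h3 : ((j : ℂ) + 1) ≠ 0 := Nat.cast_add_one_ne_zero j
    have h4 : z ^ 2 - 1 = 0 ↔ z = 1 ∨ z = -1 := by
      rw [sub_eq_zero]; exact sq_eq_one_iff
    rw [h4]
    simp [h3]
  have hev : ∀ z : ℂ, P.eval z = 0 ↔ z = 1 ∨ z = -1 := by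
    intro z
    rw [hP]
    simp only [eval_pow, eval_sub, eval_X, eval_one]
    rw [pow_eq_zero_iff (by omega)]
    rw [sub_eq_zero]; exact sq_eq_one_iff
  have hset : zeroSet P ![1, 2 * k - 1] = {0, 1, -1} := by
    ext z
    simp only [zeroSet, Set.mem_ofPred_eq, Fin.exists_fin_two, Matrix.cons_val_zero,
      Matrix.cons_val_one, hev, hder, hlin, Set.mem_insert_iff, Set.mem_singleton_iff]
    tauto
  refine ⟨2, ![1, 2 * k - 1], P, by omega, by omega, ?_, ?_, hdeg, ⟨1, -1, ?_, ?_, ?_⟩, ?_, ?_⟩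
  · rw [Fin.strictMono_iff_lt_succ]
    intro i
    fin_cases i
    simp
    omega
  · intro i
    fin_cases i
    · simp
      omega
    · simp
      omega
  · norm_num
  · rw [hev]; simp
  · rw [hev]; simp
  · rw [hset]; exact Set.toFinite _
  · rw [hset]
    rw [Set.ncard_insert_of_notMem, Set.ncard_pair]
    · norm_num
    · simp

end Pool.Agent.Results.MP_106bf9_an.SharpEvenDegree
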